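import Mathlib

/-!
# A Youden-type design with three stages and three layers

We construct an `11 × 23` Youden-type design `(𝓕, 𝓖)` with `|𝓕| = |𝓖| = 3`.  Both families are
invariant under `F_11 ⋊ (squares)`, acting on the rows `F_11` and on the columns
`{∞} ∪ F_11 × {1, 2}`.  With `N_{ij}` the intersection matrices, the families satisfy
`N_{ij} N_{ji} = 6 I + 5 J` and `N_{ij} N_{jl} N_{li} + N_{il} N_{lj} N_{ji} = 17 I + 115 J` (23 parts),
and `N_{ij} = 2 J + I` (11 parts).  Universal balance follows from these identities.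
-/

namespace Pool.Agent.Results.MP_a8a68c_co.ThreeStagesThreeLayers

open Matrix

set_option linter.unusedSectionVars false
set_option linter.unnecessarySeqFocus false

noncomputable section

variable {Ω : Type} [Fintype Ω] [DecidableEq Ω]

/-- A partition of `Ω` is given by its equivalence relation; its parts are the elements of the
quotient, a finite type. -/
local instance quotFintype (F : Setoid Ω) : Fintype (Quotient F) := Fintype.ofFinite _

local instance quotDecEq (F : Setoid Ω) : DecidableEq (Quotient F) := Classical.decEq _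

/-- `X_F`, the `Ω × F` incidence matrix. -/
def incMat (F : Setoid Ω) : Matrix Ω (Quotient F) ℝ :=
  fun ω c => if Quotient.mk F ω = c then 1 else 0

/-- `V_F`, the column space of `X_F`. -/
def colSpace (F : Setoid Ω) : Submodule ℝ (Ω → ℝ) :=
  Submodule.span ℝ (Set.range (incMat F)ᵀ)

/-- The matrix of the orthogonal projection of Euclidean space `ℝ^Ω` onto the subspace `V`. -/
def projMat (V : Submodule ℝ (Ω → ℝ)) : Matrix Ω Ω ℝ :=
  LinearMap.toMatrix' ((WithLp.linearEquiv 2 ℝ (Ω → ℝ)).toLinearMap ∘ₗ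
    ((V.comap (WithLp.linearEquiv 2 ℝ (Ω → ℝ)).toLinearMap).starProjection :
      EuclideanSpace ℝ Ω →ₗ[ℝ] EuclideanSpace ℝ Ω) ∘ₗ
    (WithLp.linearEquiv 2 ℝ (Ω → ℝ)).symm.toLinearMap)

/-- `P_𝓛`, the orthogonal projection onto the sum of the spaces `V_L`, `L ∈ 𝓛`. -/
def P (𝓛 : Set (Setoid Ω)) : Matrix Ω Ω ℝ := projMat (⨆ L ∈ 𝓛, colSpace L)

/-- `Q_𝓛 = P_𝓛 - P_U`, where `U = ⊤` is the one-part partition. -/
def Q (𝓛 : Set (Setoid Ω)) : Matrix Ω Ω ℝ := P 𝓛 - P {(⊤ : Setoid Ω)}

/-- `N_{FG} = X_Fᵀ X_G`. -/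
def N (F G : Setoid Ω) : Matrix (Quotient F) (Quotient G) ℝ := (incMat F)ᵀ * incMat G

/-- The mean entry of `N_{FG}`. -/
def meanEntry (F G : Setoid Ω) : ℝ :=
  (∑ c, ∑ d, N F G c d) / (Fintype.card (Quotient F) * Fintype.card (Quotient G))

/-- A square matrix is completely symmetric if it equals `aI + bJ`. -/
def CompletelySymmetric {ι : Type} [DecidableEq ι] (A : Matrix ι ι ℝ) : Prop :=
  ∃ a b : ℝ, A = a • (1 : Matrix ι ι ℝ) + b • (Matrix.of fun _ _ => (1 : ℝ))

/-- Universal balance of a set of partitions. -/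
structure UniversalBalance (H : Set (Setoid Ω)) : Prop where
  uniform : ∀ F ∈ H, ∀ c d : Quotient F,
    Nat.card {ω // Quotient.mk F ω = c} = Nat.card {ω // Quotient.mk F ω = d}
  entries : ∀ F ∈ H, ∀ G ∈ H, F ≠ G → ∀ c d,
    N F G c d = ⌊meanEntry F G⌋ ∨ N F G c d = ⌈meanEntry F G⌉
  balance : ∀ F ∈ H, ∀ 𝓛 ⊆ H \ {F}, 𝓛.Nonempty →
    CompletelySymmetric ((incMat F)ᵀ * (1 - P 𝓛) * incMat F) ∧
    (incMat F)ᵀ * (1 - P 𝓛) * incMat F ≠ 0 ∧
    ∃ μ : ℝ, 0 < μ ∧ μ < 1 ∧ Q {F} * Q 𝓛 * Q {F} = μ • Q {F}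

/-- `F` has `a` parts, each of size `b`. -/
def HasParts (F : Setoid Ω) (a b : ℕ) : Prop :=
  Nat.card (Quotient F) = a ∧ ∀ c : Quotient F, Nat.card {ω // Quotient.mk F ω = c} = b

/-- `F ⟂ G`: every part of `F` meets every part of `G` in exactly one point. -/
def Orthogonal (F G : Setoid Ω) : Prop :=
  ∀ (c : Quotient F) (d : Quotient G), ∃! ω, Quotient.mk F ω = c ∧ Quotient.mk G ω = d

/-- An `n × m` Youden-type design on `Ω`. -/
structure IsYoudenType (n m : ℕ) (𝓕 𝓖 : Set (Setoid Ω)) : Prop where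
  one_le : 1 ≤ n
  lt : n < m
  card : Fintype.card Ω = n * m
  partsF : ∀ F ∈ 𝓕, HasParts F m n
  partsG : ∀ G ∈ 𝓖, HasParts G n m
  orth : ∀ F ∈ 𝓕, ∀ G ∈ 𝓖, Orthogonal F G
  balF : UniversalBalance 𝓕
  balG : UniversalBalance 𝓖

/-! ### The orthogonal projection -/

theorem projMat_mulVec (V : Submodule ℝ (Ω → ℝ)) (v : Ω → ℝ) :
    projMat V *ᵥ v = (WithLp.linearEquiv 2 ℝ (Ω → ℝ))
      ((V.comap (WithLp.linearEquiv 2 ℝ (Ω → ℝ)).toLinearMap).starProjection
        ((WithLp.linearEquiv 2 ℝ (Ω → ℝ)).symm v)) := by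
  unfold projMat
  rw [← Matrix.toLin'_apply, Matrix.toLin'_toMatrix']
  rfl

theorem projMat_eq (V : Submodule ℝ (Ω → ℝ)) {v u : Ω → ℝ} (hu : u ∈ V)
    (h : ∀ w ∈ V, (v - u) ⬝ᵥ w = 0) : projMat V *ᵥ v = u := by
  rw [projMat_mulVec]
  have : (V.comap (WithLp.linearEquiv 2 ℝ (Ω → ℝ)).toLinearMap).starProjection
        ((WithLp.linearEquiv 2 ℝ (Ω → ℝ)).symm v) = (WithLp.linearEquiv 2 ℝ (Ω → ℝ)).symm u := by
    apply Submodule.eq_starProjection_of_mem_of_inner_eq_zero
    · simpa using hu
    · intro w hw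
      have := h ((WithLp.linearEquiv 2 ℝ (Ω → ℝ)) w) (by simpa using hw)
      rw [← this]
      rw [EuclideanSpace.inner_eq_star_dotProduct]
      simp [dotProduct_comm]
  rw [this]
  simp

theorem projMat_orth (V : Submodule ℝ (Ω → ℝ)) (v w : Ω → ℝ) (hw : w ∈ V) :
    (v - projMat V *ᵥ v) ⬝ᵥ w = 0 := by
  rw [projMat_mulVec]
  have := Submodule.starProjection_inner_eq_zero
    (K := V.comap (WithLp.linearEquiv 2 ℝ (Ω → ℝ)).toLinearMap)
    ((WithLp.linearEquiv 2 ℝ (Ω → ℝ)).symm v) ((WithLp.linearEquiv 2 ℝ (Ω → ℝ)).symm w)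
    (by simpa using hw)
  rw [EuclideanSpace.inner_eq_star_dotProduct] at this
  rw [← this]
  simp [dotProduct_comm]

theorem dot_span_eq_zero {S : Set (Ω → ℝ)} {v : Ω → ℝ} (h : ∀ x ∈ S, v ⬝ᵥ x = 0) :
    ∀ w ∈ Submodule.span ℝ S, v ⬝ᵥ w = 0 := by
  intro w hw
  induction hw using Submodule.span_induction with
  | mem x hx => exact h x hx
  | zero => simp
  | add x y _ _ hx hy => rw [dotProduct_add, hx, hy, add_zero]
  | smul c x _ hx => rw [dotProduct_smul, hx, smul_zero]

theorem dot_sup_eq_zero {A B : Submodule ℝ (Ω → ℝ)} {v : Ω → ℝ} (hA : ∀ x ∈ A, v ⬝ᵥ x = 0)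
    (hB : ∀ x ∈ B, v ⬝ᵥ x = 0) : ∀ w ∈ A ⊔ B, v ⬝ᵥ w = 0 := by
  intro w hw
  obtain ⟨a, ha, b, hb, rfl⟩ := Submodule.mem_sup.1 hw
  rw [dotProduct_add, hA a ha, hB b hb, add_zero]

/-! ### Partitions given by labels -/

variable {M : ℕ}

/-- The indicator of a fibre. -/
def ind (f : Ω → Fin M) (b : Fin M) : Ω → ℝ := fun ω => if f ω = b then 1 else 0

theorem incMat_mk (f : Ω → Fin M) (x : Ω) :
    (fun ω => incMat (Setoid.ker f) ω (Quotient.mk _ x)) = ind f (f x) := by
  funext ω
  by_cases h : f ω = f x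
  · have : Quotient.mk (Setoid.ker f) ω = Quotient.mk _ x := Quotient.sound h
    simp [incMat, ind, h, this]
  · have : ¬ Quotient.mk (Setoid.ker f) ω = Quotient.mk _ x := fun e => h (Quotient.exact e)
    simp [incMat, ind, h, this]

theorem colSpace_ker (f : Ω → Fin M) (hs : Function.Surjective f) :
    colSpace (Setoid.ker f) = Submodule.span ℝ (Set.range (ind f)) := by
  unfold colSpace
  congr 1
  ext v
  constructor
  · rintro ⟨c, rfl⟩
    obtain ⟨x, rfl⟩ := Quotient.exists_rep c
    exact ⟨f x, (incMat_mk f x).symm⟩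
  · rintro ⟨b, rfl⟩
    obtain ⟨x, rfl⟩ := hs b
    exact ⟨Quotient.mk _ x, incMat_mk f x⟩

theorem ind_mem_colSpace (f : Ω → Fin M) (hs : Function.Surjective f) (b : Fin M) :
    ind f b ∈ colSpace (Setoid.ker f) := by
  rw [colSpace_ker f hs]
  exact Submodule.subset_span ⟨b, rfl⟩

theorem sum_ind (f : Ω → Fin M) : (∑ b, ind f b) = fun _ => 1 := by
  funext ω
  simp [ind, Finset.sum_apply]

theorem one_mem_colSpace (f : Ω → Fin M) (hs : Function.Surjective f) :
    (fun _ => (1 : ℝ)) ∈ colSpace (Setoid.ker f) := by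
  rw [← sum_ind f]
  exact Submodule.sum_mem _ fun b _ => ind_mem_colSpace f hs b

theorem P_singleton (F : Setoid Ω) : P {F} = projMat (colSpace F) := by
  unfold P
  congr 1
  simp

theorem P_pair (F G : Setoid Ω) : P {F, G} = projMat (colSpace F ⊔ colSpace G) := by
  unfold P
  congr 1
  rw [iSup_pair]

theorem colSpace_top_le :
    ∀ w ∈ colSpace (⊤ : Setoid Ω), ∃ c : ℝ, w = fun _ => c := by
  intro w hw
  unfold colSpace at hw
  induction hw using Submodule.span_induction with
  | mem x hx =>
    obtain ⟨c, rfl⟩ := hx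
    obtain ⟨y, rfl⟩ := Quotient.exists_rep c
    refine ⟨1, ?_⟩
    funext ω
    have : Quotient.mk (⊤ : Setoid Ω) ω = Quotient.mk _ y := Quotient.sound trivial
    simp [incMat, this]
  | zero => exact ⟨0, rfl⟩
  | add x y _ _ hx hy =>
    obtain ⟨a, rfl⟩ := hx
    obtain ⟨b, rfl⟩ := hy
    exact ⟨a + b, rfl⟩
  | smul c x _ hx =>
    obtain ⟨a, rfl⟩ := hx
    exact ⟨c * a, rfl⟩

theorem const_mem_colSpace_top [Nonempty Ω] (c : ℝ) :
    (fun _ => c) ∈ colSpace (⊤ : Setoid Ω) := by
  obtain ⟨y⟩ := ‹Nonempty Ω›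
  have h : (fun _ : Ω => c) = c • (incMat (⊤ : Setoid Ω))ᵀ (Quotient.mk _ y) := by
    funext ω
    have : Quotient.mk (⊤ : Setoid Ω) ω = Quotient.mk _ y := Quotient.sound trivial
    simp [incMat, this]
  rw [h]
  exact Submodule.smul_mem _ _ (Submodule.subset_span ⟨_, rfl⟩)

/-- `P_U v` is the constant function with value the mean of `v`. -/
theorem P_top_mulVec [Nonempty Ω] (v : Ω → ℝ) :
    P {(⊤ : Setoid Ω)} *ᵥ v = fun _ => (∑ ω, v ω) / Fintype.card Ω := by
  rw [P_singleton]
  apply projMat_eq _ (const_mem_colSpace_top _)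
  intro w hw
  obtain ⟨c, rfl⟩ := colSpace_top_le w hw
  have hc : (Fintype.card Ω : ℝ) ≠ 0 := by
    exact_mod_cast Fintype.card_ne_zero
  simp only [dotProduct, Pi.sub_apply, ← Finset.sum_mul, Finset.sum_sub_distrib,
    Finset.sum_const, Finset.card_univ, nsmul_eq_mul]
  field_simp
  ring

theorem mk_eq_iff (f : Ω → Fin M) (x y : Ω) :
    (Quotient.mk (Setoid.ker f) x = Quotient.mk (Setoid.ker f) y) ↔ f x = f y :=
  ⟨fun e => Quotient.exact e, fun h => Quotient.sound h⟩

/-- The hypothesis that the fibres of `f` all have size `k`. -/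
def Reg (f : Ω → Fin M) (k : ℝ) : Prop :=
  ∀ a b, ind f a ⬝ᵥ ind f b = if a = b then k else 0

theorem Reg.sum {f : Ω → Fin M} {k : ℝ} (h : Reg f k) (b : Fin M) : ∑ ω, ind f b ω = k := by
  have h1 := h b b
  simp only [if_true] at h1
  rw [← h1]
  simp only [dotProduct, ind]
  refine Finset.sum_congr rfl fun ω _ => ?_
  split_ifs <;> simp

theorem Reg.surj {f : Ω → Fin M} {k : ℝ} (h : Reg f k) (hk : 0 < k) :
    Function.Surjective f := by
  intro b
  by_contra hb
  push Not at hb
  have h1 := h.sum b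
  have h2 : ∑ ω, ind f b ω = 0 := Finset.sum_eq_zero fun ω _ => by simp [ind, hb ω]
  rw [h2] at h1
  exact hk.ne h1

theorem Reg.card {f : Ω → Fin M} {k : ℝ} (h : Reg f k) : (Fintype.card Ω : ℝ) = M * k := by
  have h1 : ∑ b, ∑ ω, ind f b ω = M * k := by
    simp [h.sum]
  rw [← h1, Finset.sum_comm]
  have h2 : ∀ ω, ∑ b, ind f b ω = 1 := fun ω => by simp [ind]
  simp [h2]

/-- `P_F v`. -/
theorem Reg.P_mulVec {f : Ω → Fin M} {k : ℝ} (h : Reg f k) (hk : 0 < k) (v : Ω → ℝ) :
    P {Setoid.ker f} *ᵥ v = ∑ b, ((ind f b ⬝ᵥ v) / k) • ind f b := by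
  rw [P_singleton]
  apply projMat_eq
  · exact Submodule.sum_mem _ fun b _ =>
      Submodule.smul_mem _ _ (ind_mem_colSpace f (h.surj hk) b)
  · rw [colSpace_ker f (h.surj hk)]
    apply dot_span_eq_zero
    rintro _ ⟨a, rfl⟩
    rw [sub_dotProduct, sum_dotProduct]
    simp only [smul_dotProduct, h _ _, smul_eq_mul, mul_ite, mul_zero]
    rw [Finset.sum_ite_eq' Finset.univ a]
    simp only [Finset.mem_univ, if_true]
    rw [div_mul_cancel₀ _ hk.ne', dotProduct_comm]
    ring

/-- The balance conditions for one partition with labels `f` and one set `𝓛`, from the values of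
`⟨1_a, P_𝓛 1_b⟩`. -/
theorem balance_of_label [Nonempty Ω] {f : Ω → Fin M} {k : ℝ} (hf : Reg f k) (hk : 0 < k)
    (hM : 2 ≤ M) (𝓛 : Set (Setoid Ω)) (h1 : (fun _ => (1 : ℝ)) ∈ (⨆ L ∈ 𝓛, colSpace L))
    (p : Fin M → Ω → ℝ) (hp : ∀ b, P 𝓛 *ᵥ ind f b = p b)
    (μ c : ℝ) (hμ0 : 0 < μ) (hμ1 : μ < 1)
    (h : ∀ a b, ind f a ⬝ᵥ p b = (if a = b then μ * k else 0) + c) :
    CompletelySymmetric ((incMat (Setoid.ker f))ᵀ * (1 - P 𝓛) * incMat (Setoid.ker f)) ∧
    (incMat (Setoid.ker f))ᵀ * (1 - P 𝓛) * incMat (Setoid.ker f) ≠ 0 ∧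
    ∃ μ : ℝ, 0 < μ ∧ μ < 1 ∧
      Q {Setoid.ker f} * Q 𝓛 * Q {Setoid.ker f} = μ • Q {Setoid.ker f} := by
  have hMR : (0 : ℝ) < M := by exact_mod_cast (by omega : 0 < M)
  have hcard := hf.card
  have hcard0 : (Fintype.card Ω : ℝ) ≠ 0 := by rw [hcard]; positivity
  have hentry : ∀ x y : Ω, ((incMat (Setoid.ker f))ᵀ * (1 - P 𝓛) * incMat (Setoid.ker f) :
      Matrix (Quotient (Setoid.ker f)) (Quotient (Setoid.ker f)) ℝ)
      (Quotient.mk _ x) (Quotient.mk _ y) = (if f x = f y then k * (1 - μ) else 0) - c := by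
    intro x y
    rw [Matrix.mul_assoc, Matrix.mul_apply]
    have e1 : ∀ ω, ((1 - P 𝓛) * incMat (Setoid.ker f) : Matrix Ω (Quotient (Setoid.ker f)) ℝ)
        ω (Quotient.mk _ y) = ((1 - P 𝓛) *ᵥ ind f (f y)) ω := by
      intro ω
      rw [Matrix.mul_apply, ← incMat_mk f y]
      rfl
    simp only [e1, Matrix.transpose_apply]
    have e2 : ∀ ω, incMat (Setoid.ker f) ω (Quotient.mk _ x) = ind f (f x) ω := fun ω =>
      congrFun (incMat_mk f x) ω
    simp only [e2]
    change ind f (f x) ⬝ᵥ ((1 - P 𝓛) *ᵥ ind f (f y)) = _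
    rw [Matrix.sub_mulVec, Matrix.one_mulVec, dotProduct_sub, hf, hp, h]
    split_ifs <;> ring
  have hne : k * (1 - μ) ≠ 0 := mul_ne_zero hk.ne' (by linarith)
  refine ⟨⟨k * (1 - μ), -c, ?_⟩, ?_, μ, hμ0, hμ1, ?_⟩
  · ext q r
    obtain ⟨x, rfl⟩ := Quotient.exists_rep q
    obtain ⟨y, rfl⟩ := Quotient.exists_rep r
    rw [hentry]
    simp only [Matrix.add_apply, Matrix.smul_apply, Matrix.one_apply, Matrix.of_apply,
      smul_eq_mul, mk_eq_iff]
    split_ifs <;> ring
  · intro h0
    obtain ⟨x, hx⟩ := hf.surj hk ⟨0, by omega⟩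
    obtain ⟨y, hy⟩ := hf.surj hk ⟨1, by omega⟩
    have h2 := hentry x x
    have h3 := hentry x y
    rw [h0] at h2 h3
    have hxy : f x ≠ f y := by
      rw [hx, hy]
      intro e
      simp at e
    rw [if_pos rfl] at h2
    rw [if_neg hxy] at h3
    simp only [Matrix.zero_apply] at h2 h3
    apply hne
    linarith
  · -- the vectors `w b = 1_b - (1/M) 1`
    have hP1 : P 𝓛 *ᵥ (fun _ => (1 : ℝ)) = fun _ => 1 :=
      projMat_eq _ h1 (fun w _ => by simp)
    have hPU : ∀ v : Ω → ℝ, P {(⊤ : Setoid Ω)} *ᵥ v = ((∑ ω, v ω) / (M * k)) • fun _ => (1 : ℝ) := by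
      intro v
      rw [P_top_mulVec, hcard]
      funext ω
      simp
    set w : Fin M → Ω → ℝ := fun b => ind f b - (1 / (M : ℝ)) • (fun _ => (1 : ℝ)) with hw
    have hQF : ∀ v : Ω → ℝ, Q {Setoid.ker f} *ᵥ v = ∑ b, ((ind f b ⬝ᵥ v) / k) • w b := by
      intro v
      unfold Q
      rw [Matrix.sub_mulVec, hf.P_mulVec hk, hPU]
      simp only [hw, smul_sub, Finset.sum_sub_distrib]
      congr 1
      simp only [smul_smul, ← Finset.sum_smul]
      congr 1
      have : ∑ ω, v ω = ∑ b, ind f b ⬝ᵥ v := by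
        rw [← sum_dotProduct, sum_ind]
        simp [dotProduct]
      rw [this, Finset.sum_div]
      refine Finset.sum_congr rfl fun b _ => ?_
      field_simp
    have hw0 : ∑ a, w a = 0 := by
      simp only [hw, Finset.sum_sub_distrib, sum_ind, Finset.sum_const, Finset.card_univ,
        Fintype.card_fin]
      funext ω
      simp
      field_simp
      simp
    have hPw : ∀ b, P {(⊤ : Setoid Ω)} *ᵥ w b = 0 := by
      intro b
      rw [hPU]
      have : ∑ ω, w b ω = 0 := by
        simp only [hw, Pi.sub_apply, Finset.sum_sub_distrib, hf.sum, Pi.smul_apply, smul_eq_mul,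
          mul_one, Finset.sum_const, Finset.card_univ, nsmul_eq_mul]
        rw [hcard]
        field_simp
        ring
      rw [this]
      simp
    have hmain : ∀ b, Q {Setoid.ker f} *ᵥ (Q 𝓛 *ᵥ w b) = μ • w b := by
      intro b
      have e1 : Q 𝓛 *ᵥ w b = p b - (1 / (M : ℝ)) • (fun _ => (1 : ℝ)) := by
        unfold Q
        rw [Matrix.sub_mulVec, hPw, sub_zero]
        simp only [hw]
        rw [Matrix.mulVec_sub, Matrix.mulVec_smul, hP1, hp]
      rw [e1, hQF]
      have e2 : ∀ a, ind f a ⬝ᵥ (p b - (1 / (M : ℝ)) • (fun _ => (1 : ℝ))) / k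
          = (if a = b then μ else 0) + (c - k / M) / k := by
        intro a
        rw [dotProduct_sub, h, dotProduct_smul]
        have : ind f a ⬝ᵥ (fun _ => (1 : ℝ)) = k := by
          rw [← hf.sum a]
          simp [dotProduct]
        have hM0 : (M : ℝ) ≠ 0 := hMR.ne'
        rw [this, smul_eq_mul]
        split_ifs
        · field_simp
          ring
        · field_simp
          ring
      simp only [e2, add_smul, Finset.sum_add_distrib, ← Finset.smul_sum, hw0, smul_zero, add_zero,
        ite_smul, zero_smul, Finset.sum_ite_eq', Finset.mem_univ, if_true]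
    apply Matrix.toLin'.injective
    apply LinearMap.ext
    intro v
    rw [Matrix.toLin'_apply, Matrix.toLin'_apply, ← Matrix.mulVec_mulVec, ← Matrix.mulVec_mulVec,
      Matrix.smul_mulVec, hQF v]
    simp only [Matrix.mulVec_sum, Matrix.mulVec_smul, hmain, Finset.smul_sum]
    refine Finset.sum_congr rfl fun b _ => ?_
    rw [smul_comm]

/-! ### Families of three labelled partitions -/

/-- The all-ones matrix. -/
def J : Matrix (Fin M) (Fin M) ℝ := Matrix.of fun _ _ => 1

/-- The matrix of intersection numbers. -/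
def G (f g : Ω → Fin M) : Matrix (Fin M) (Fin M) ℝ := Matrix.of fun a b => ind f a ⬝ᵥ ind g b

theorem G_symm (f g : Ω → Fin M) (a b : Fin M) : G f g a b = G g f b a := by
  simp [G, dotProduct_comm]

theorem G_mul_J {f g : Ω → Fin M} {k : ℝ} (hf : Reg f k) : G f g * J = k • (J : Matrix _ _ ℝ) := by
  ext a b
  simp only [Matrix.mul_apply, G, J, Matrix.of_apply, mul_one, Matrix.smul_apply, smul_eq_mul]
  rw [← dotProduct_sum, sum_ind, ← hf.sum a]
  simp [dotProduct]

theorem J_mul_G {f g : Ω → Fin M} {k : ℝ} (hg : Reg g k) : J * G f g = k • (J : Matrix _ _ ℝ) := by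
  ext a b
  simp only [Matrix.mul_apply, G, J, Matrix.of_apply, one_mul, mul_one, Matrix.smul_apply,
    smul_eq_mul]
  rw [← sum_dotProduct, sum_ind, ← hg.sum b]
  simp [dotProduct]

/-- One partition in `𝓛`. -/
theorem balance_one [Nonempty Ω] {f g : Ω → Fin M} {k τ lam : ℝ} (hf : Reg f k) (hg : Reg g k)
    (hk : 0 < k) (hM : 2 ≤ M) (hfg : G f g * G g f = τ • 1 + lam • J)
    (hτ : 0 < τ) (hτ' : τ < k ^ 2) :
    CompletelySymmetric ((incMat (Setoid.ker f))ᵀ * (1 - P {Setoid.ker g}) * incMat (Setoid.ker f)) ∧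
    (incMat (Setoid.ker f))ᵀ * (1 - P {Setoid.ker g}) * incMat (Setoid.ker f) ≠ 0 ∧
    ∃ μ : ℝ, 0 < μ ∧ μ < 1 ∧
      Q {Setoid.ker f} * Q {Setoid.ker g} * Q {Setoid.ker f} = μ • Q {Setoid.ker f} := by
  refine balance_of_label hf hk hM {Setoid.ker g} ?_
    (fun b => ∑ c, (G g f c b / k) • ind g c) ?_ (τ / k ^ 2) (lam / k) (by positivity)
    ((div_lt_one (by positivity)).2 hτ') ?_
  · simpa using one_mem_colSpace g (hg.surj hk)
  · intro b
    rw [hg.P_mulVec hk]
    rfl
  · intro a b
    have h1 := congrFun (congrFun hfg a) b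
    simp only [Matrix.mul_apply, Matrix.add_apply, Matrix.smul_apply, Matrix.one_apply, J,
      Matrix.of_apply, smul_eq_mul, mul_one] at h1
    rw [dotProduct_sum]
    have : ∀ c, ind f a ⬝ᵥ (G g f c b / k) • ind g c = (G f g a c * G g f c b) / k := by
      intro c
      rw [dotProduct_smul, smul_eq_mul]
      change _ * G f g a c = _
      ring
    simp only [this]
    rw [← Finset.sum_div, h1]
    split_ifs <;> field_simp <;> ring

/-- Two partitions in `𝓛`. -/
theorem balance_two [Nonempty Ω] {f g h : Ω → Fin M} {k τ lam κ lam' : ℝ} (hf : Reg f k)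
    (hg : Reg g k) (hh : Reg h k) (hk : 0 < k) (hM : 2 ≤ M)
    (hfg : G f g * G g f = τ • 1 + lam • J) (hfh : G f h * G h f = τ • 1 + lam • J)
    (hgh : G g h * G h g = τ • 1 + lam • J) (hhg : G h g * G g h = τ • 1 + lam • J)
    (hT : G f g * G g h * G h f + G f h * G h g * G g f = κ • 1 + lam' • J)
    (hτ' : τ < k ^ 2) (hκ : κ < 2 * k * τ) (hκ' : 2 * k * τ - κ < k * (k ^ 2 - τ)) :
    CompletelySymmetric ((incMat (Setoid.ker f))ᵀ * (1 - P {Setoid.ker g, Setoid.ker h}) *
      incMat (Setoid.ker f)) ∧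
    (incMat (Setoid.ker f))ᵀ * (1 - P {Setoid.ker g, Setoid.ker h}) * incMat (Setoid.ker f) ≠ 0 ∧
    ∃ μ : ℝ, 0 < μ ∧ μ < 1 ∧
      Q {Setoid.ker f} * Q {Setoid.ker g, Setoid.ker h} * Q {Setoid.ker f}
        = μ • Q {Setoid.ker f} := by
  have hd : 0 < k ^ 2 - τ := by linarith
  obtain ⟨y, hy⟩ : ∃ y, y * (k ^ 2 - τ) = 1 := ⟨(k ^ 2 - τ)⁻¹, inv_mul_cancel₀ hd.ne'⟩
  have hy0 : 0 < y := by
    rcases lt_trichotomy y 0 with h | h | h
    · nlinarith
    · rw [h, zero_mul] at hy
      exact absurd hy (by norm_num)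
    · exact h
  set α : Matrix (Fin M) (Fin M) ℝ :=
    (y * k) • G g f - y • (G g h * G h f) + (y * lam / 2) • J with hα
  set β : Matrix (Fin M) (Fin M) ℝ :=
    (y * k) • G h f - y • (G h g * G g f) + (y * lam / 2) • J with hβ
  have hn1 : k • α + G g h * β = G g f := by
    have e1 : G g h * (G h g * G g f) = τ • G g f + (lam * k) • J := by
      rw [← Matrix.mul_assoc, hgh, Matrix.add_mul, Matrix.smul_mul, Matrix.smul_mul,
        Matrix.one_mul, J_mul_G hf, smul_smul]
    rw [hα, hβ]
    simp only [Matrix.mul_add, Matrix.mul_sub, Matrix.mul_smul, e1, G_mul_J hg]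
    linear_combination (norm := module) hy • G g f
  have hn2 : G h g * α + k • β = G h f := by
    have e1 : G h g * (G g h * G h f) = τ • G h f + (lam * k) • J := by
      rw [← Matrix.mul_assoc, hhg, Matrix.add_mul, Matrix.smul_mul, Matrix.smul_mul,
        Matrix.one_mul, J_mul_G hf, smul_smul]
    rw [hα, hβ]
    simp only [Matrix.mul_add, Matrix.mul_sub, Matrix.mul_smul, e1, G_mul_J hh]
    linear_combination (norm := module) hy • G h f
  have hn3 : G f g * α + G f h * β = (y * (2 * k * τ - κ)) • 1 +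
      (y * (3 * k * lam - lam')) • J := by
    rw [hα, hβ]
    simp only [Matrix.mul_add, Matrix.mul_sub, Matrix.mul_smul, ← Matrix.mul_assoc, hfg, hfh,
      G_mul_J hf]
    linear_combination (norm := module) (-y) • hT
  have hsg := hg.surj hk
  have hsh := hh.surj hk
  refine balance_of_label hf hk hM {Setoid.ker g, Setoid.ker h} ?_
    (fun b => ∑ c, (α c b) • ind g c + ∑ c, (β c b) • ind h c) ?_
    (y * (2 * k * τ - κ) / k) (y * (3 * k * lam - lam')) ?_ ?_ ?_
  · rw [iSup_pair]
    exact Submodule.mem_sup_left (one_mem_colSpace g hsg)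
  · intro b
    rw [P_pair]
    apply projMat_eq
    · refine Submodule.add_mem_sup ?_ ?_
      · exact Submodule.sum_mem _ fun c _ => Submodule.smul_mem _ _ (ind_mem_colSpace g hsg c)
      · exact Submodule.sum_mem _ fun c _ => Submodule.smul_mem _ _ (ind_mem_colSpace h hsh c)
    · apply dot_sup_eq_zero
      · rw [colSpace_ker g hsg]
        apply dot_span_eq_zero
        rintro _ ⟨a, rfl⟩
        have e := congrFun (congrFun hn1 a) b
        simp only [Matrix.add_apply, Matrix.smul_apply, Matrix.mul_apply, smul_eq_mul] at e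
        rw [sub_dotProduct, add_dotProduct, sum_dotProduct, sum_dotProduct]
        simp only [smul_dotProduct, smul_eq_mul]
        have e1 : ind f b ⬝ᵥ ind g a = G g f a b := by
          rw [dotProduct_comm]
          rfl
        have e2 : ∀ c, ind g c ⬝ᵥ ind g a = if a = c then k else 0 := fun c => by
          rw [dotProduct_comm, hg]
        have e3 : ∀ c, ind h c ⬝ᵥ ind g a = G g h a c := fun c => by
          rw [dotProduct_comm]
          rfl
        simp only [e1, e2, e3, mul_ite, mul_zero, Finset.sum_ite_eq, Finset.mem_univ, if_true]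
        rw [← e]
        have e4 : ∑ c, β c b * G g h a c = ∑ c, G g h a c * β c b :=
          Finset.sum_congr rfl fun c _ => mul_comm _ _
        rw [e4]
        ring
      · rw [colSpace_ker h hsh]
        apply dot_span_eq_zero
        rintro _ ⟨a, rfl⟩
        have e := congrFun (congrFun hn2 a) b
        simp only [Matrix.add_apply, Matrix.smul_apply, Matrix.mul_apply, smul_eq_mul] at e
        rw [sub_dotProduct, add_dotProduct, sum_dotProduct, sum_dotProduct]
        simp only [smul_dotProduct, smul_eq_mul]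
        have e1 : ind f b ⬝ᵥ ind h a = G h f a b := by
          rw [dotProduct_comm]
          rfl
        have e2 : ∀ c, ind h c ⬝ᵥ ind h a = if a = c then k else 0 := fun c => by
          rw [dotProduct_comm, hh]
        have e3 : ∀ c, ind g c ⬝ᵥ ind h a = G h g a c := fun c => by
          rw [dotProduct_comm]
          rfl
        simp only [e1, e2, e3, mul_ite, mul_zero, Finset.sum_ite_eq, Finset.mem_univ, if_true]
        rw [← e]
        have e4 : ∑ c, α c b * G h g a c = ∑ c, G h g a c * α c b :=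
          Finset.sum_congr rfl fun c _ => mul_comm _ _
        rw [e4]
        ring
  · have : 0 < 2 * k * τ - κ := by linarith
    positivity
  · rw [div_lt_one hk]
    have e : y * (2 * k * τ - κ) < y * (k * (k ^ 2 - τ)) := mul_lt_mul_of_pos_left hκ' hy0
    calc _ < y * (k * (k ^ 2 - τ)) := e
      _ = k * (y * (k ^ 2 - τ)) := by ring
      _ = k := by rw [hy, mul_one]
  · intro a b
    have e := congrFun (congrFun hn3 a) b
    simp only [Matrix.mul_apply, Matrix.add_apply, Matrix.smul_apply, Matrix.one_apply, J,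
      Matrix.of_apply, smul_eq_mul, mul_one] at e
    rw [dotProduct_add, dotProduct_sum, dotProduct_sum]
    simp only [dotProduct_smul, smul_eq_mul]
    have e1 : ∀ c, ind f a ⬝ᵥ ind g c = G f g a c := fun c => rfl
    have e2 : ∀ c, ind f a ⬝ᵥ ind h c = G f h a c := fun c => rfl
    simp only [e1, e2]
    have e3 : ∀ A B : Matrix (Fin M) (Fin M) ℝ, ∑ c, A c b * B a c = ∑ c, B a c * A c b :=
      fun A B => Finset.sum_congr rfl fun c _ => mul_comm _ _
    rw [e3, e3, e]
    split_ifs
    · field_simp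
    · simp

/-- The numerical conditions on three labelled partitions. -/
structure Fam (f : Fin 3 → Ω → Fin M) (k τ lam κ lam' : ℝ) : Prop where
  reg : ∀ i, Reg (f i) k
  sq : ∀ i j, i ≠ j → G (f i) (f j) * G (f j) (f i) = τ • 1 + lam • J
  tr : ∀ i j l, i ≠ j → j ≠ l → i ≠ l →
    G (f i) (f j) * G (f j) (f l) * G (f l) (f i) +
      G (f i) (f l) * G (f l) (f j) * G (f j) (f i) = κ • 1 + lam' • J
  ent : ∀ i j, i ≠ j → ∀ a b,
    G (f i) (f j) a b = ⌊k / M⌋ ∨ G (f i) (f j) a b = ⌈k / M⌉

theorem natCard_part {f : Ω → Fin M} {k : ℝ} (hf : Reg f k) (c : Quotient (Setoid.ker f)) :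
    (Nat.card {ω // Quotient.mk (Setoid.ker f) ω = c} : ℝ) = k := by
  obtain ⟨x, rfl⟩ := Quotient.exists_rep c
  rw [← hf.sum (f x), Nat.card_eq_fintype_card, Fintype.card_subtype, Finset.card_filter]
  push_cast
  refine Finset.sum_congr rfl fun ω _ => ?_
  simp only [ind, mk_eq_iff]

theorem natCard_quot {f : Ω → Fin M} {k : ℝ} (hf : Reg f k) (hk : 0 < k) :
    Nat.card (Quotient (Setoid.ker f)) = M := by
  rw [Nat.card_congr (Setoid.quotientKerEquivOfSurjective f (hf.surj hk))]
  simp

theorem N_mk (f g : Ω → Fin M) (x y : Ω) :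
    N (Setoid.ker f) (Setoid.ker g) (Quotient.mk _ x) (Quotient.mk _ y) = G f g (f x) (g y) := by
  unfold N G
  rw [Matrix.mul_apply, Matrix.of_apply, ← incMat_mk, ← incMat_mk]
  rfl

theorem meanEntry_eq [Nonempty Ω] {f g : Ω → Fin M} {k : ℝ} (hf : Reg f k) (hg : Reg g k)
    (hk : 0 < k) (hM : 0 < M) : meanEntry (Setoid.ker f) (Setoid.ker g) = k / M := by
  have h1 : ∀ (F : Setoid Ω) (ω : Ω), ∑ c, incMat F ω c = 1 := fun F ω => by
    simp [incMat]
  have h2 : ∑ c, ∑ d, N (Setoid.ker f) (Setoid.ker g) c d = M * k := by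
    rw [← hf.card]
    simp only [N, Matrix.mul_apply, Matrix.transpose_apply]
    calc ∑ c, ∑ d, ∑ ω, incMat (Setoid.ker f) ω c * incMat (Setoid.ker g) ω d
        = ∑ c, ∑ ω, ∑ d, incMat (Setoid.ker f) ω c * incMat (Setoid.ker g) ω d :=
          Finset.sum_congr rfl fun c _ => Finset.sum_comm
      _ = ∑ c, ∑ ω, incMat (Setoid.ker f) ω c :=
          Finset.sum_congr rfl fun c _ => Finset.sum_congr rfl fun ω _ => by
            rw [← Finset.mul_sum, h1, mul_one]
      _ = ∑ ω, ∑ c, incMat (Setoid.ker f) ω c := Finset.sum_comm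
      _ = Fintype.card Ω := by simp [h1]
  have hMR : (0 : ℝ) < M := by exact_mod_cast hM
  unfold meanEntry
  rw [h2, ← Nat.card_eq_fintype_card, ← Nat.card_eq_fintype_card, natCard_quot hf hk,
    natCard_quot hg hk]
  field_simp

theorem Fam.injective {f : Fin 3 → Ω → Fin M} {k τ lam κ lam' : ℝ} [Nonempty Ω]
    (hF : Fam f k τ lam κ lam') (hk1 : (⌈k / M⌉ : ℝ) < k) :
    Function.Injective fun i => Setoid.ker (f i) := by
  intro i j hij
  by_contra hne
  obtain ⟨x⟩ := ‹Nonempty Ω›
  have h1 : ind (f i) (f i x) = ind (f j) (f j x) := by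
    funext ω
    have : f i ω = f i x ↔ f j ω = f j x := by
      have h2 := congrArg (fun s : Setoid Ω => s ω x) hij
      simpa [Setoid.ker_def] using h2
    simp only [ind, this]
  have h3 : G (f i) (f j) (f i x) (f j x) = k := by
    change ind (f i) (f i x) ⬝ᵥ ind (f j) (f j x) = k
    rw [h1, hF.reg j, if_pos rfl]
  have h4 : (⌊k / M⌋ : ℝ) ≤ ⌈k / M⌉ := by exact_mod_cast Int.floor_le_ceil _
  rcases hF.ent i j hne (f i x) (f j x) with h | h <;> rw [h3] at h <;> linarith

theorem Fam.universalBalance [Nonempty Ω] {f : Fin 3 → Ω → Fin M} {k τ lam κ lam' : ℝ}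
    (hF : Fam f k τ lam κ lam') (hk : 0 < k) (hM : 2 ≤ M) (hτ : 0 < τ) (hτ' : τ < k ^ 2)
    (hκ : κ < 2 * k * τ) (hκ' : 2 * k * τ - κ < k * (k ^ 2 - τ)) :
    UniversalBalance (Set.range fun i => Setoid.ker (f i)) where
  uniform := by
    rintro _ ⟨i, rfl⟩ c d
    have h1 := natCard_part (hF.reg i) c
    have h2 := natCard_part (hF.reg i) d
    exact_mod_cast h1.trans h2.symm
  entries := by
    rintro _ ⟨i, rfl⟩ _ ⟨j, rfl⟩ hne c d
    have hij : i ≠ j := fun e => hne (by rw [e])
    obtain ⟨x, rfl⟩ := Quotient.exists_rep c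
    obtain ⟨y, rfl⟩ := Quotient.exists_rep d
    rw [meanEntry_eq (hF.reg i) (hF.reg j) hk (by omega), N_mk]
    exact hF.ent i j hij _ _
  balance := by
    rintro _ ⟨i, rfl⟩ 𝓛 h𝓛 hne
    have hall : ∀ i : Fin 3, ∃ j l : Fin 3, i ≠ j ∧ j ≠ l ∧ i ≠ l ∧
        ∀ t, t = i ∨ t = j ∨ t = l := by
      decide
    obtain ⟨j, l, hij, hjl, hil, ht⟩ := hall i
    have hsub : 𝓛 ⊆ {Setoid.ker (f j), Setoid.ker (f l)} := by
      intro L hL
      obtain ⟨⟨t, rfl⟩, hLne⟩ := h𝓛 hL
      rcases ht t with rfl | rfl | rfl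
      · exact absurd rfl hLne
      · exact Or.inl rfl
      · exact Or.inr rfl
    rcases Set.subset_pair_iff_eq.1 hsub with h | h | h | h
    · rw [h] at hne
      exact absurd hne Set.not_nonempty_empty
    · rw [h]
      exact balance_one (hF.reg i) (hF.reg j) hk hM (hF.sq i j hij) hτ hτ'
    · rw [h]
      exact balance_one (hF.reg i) (hF.reg l) hk hM (hF.sq i l hil) hτ hτ'
    · rw [h]
      exact balance_two (hF.reg i) (hF.reg j) (hF.reg l) hk hM (hF.sq i j hij) (hF.sq i l hil)
        (hF.sq j l hjl) (hF.sq l j hjl.symm) (hF.tr i j l hij hjl hil) hτ' hκ hκ'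

theorem Fam.ncard [Nonempty Ω] {f : Fin 3 → Ω → Fin M} {k τ lam κ lam' : ℝ}
    (hF : Fam f k τ lam κ lam') (hk1 : (⌈k / M⌉ : ℝ) < k) :
    (Set.range fun i => Setoid.ker (f i)).ncard = 3 := by
  rw [← Set.image_univ, Set.ncard_image_of_injective _ (hF.injective hk1), Set.ncard_univ]
  simp

/-! ### From natural numbers to the real matrices -/

theorem G_eq_count {f g : Ω → Fin M} {C : Fin M → Fin M → ℕ}
    (h : ∀ a b, (Finset.univ.filter fun ω => f ω = a ∧ g ω = b).card = C a b) :
    G f g = Matrix.of fun a b => (C a b : ℝ) := by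
  ext a b
  rw [Matrix.of_apply, ← h, Finset.card_filter]
  push_cast
  simp only [G, Matrix.of_apply, dotProduct, ind]
  refine Finset.sum_congr rfl fun ω _ => ?_
  by_cases h1 : f ω = a <;> by_cases h2 : g ω = b <;> simp [h1, h2]

theorem cast_mul_eq {A B D : Fin M → Fin M → ℕ} (h : ∀ a b, ∑ c, A a c * B c b = D a b) :
    (Matrix.of fun a b => (A a b : ℝ)) * (Matrix.of fun a b => (B a b : ℝ))
      = Matrix.of fun a b => (D a b : ℝ) := by
  ext a b
  rw [Matrix.mul_apply, Matrix.of_apply, ← h]
  push_cast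
  rfl

theorem fam_of_nat {f : Fin 3 → Ω → Fin M} {k τ lam κ lam' : ℕ}
    (C : Fin 3 → Fin 3 → Fin M → Fin M → ℕ) (D : Fin 3 → Fin 3 → Fin 3 → Fin M → Fin M → ℕ)
    (h0 : ∀ i a b, (Finset.univ.filter fun ω => f i ω = a ∧ f i ω = b).card
      = if a = b then k else 0)
    (hC : ∀ i j, i ≠ j → ∀ a b,
      (Finset.univ.filter fun ω => f i ω = a ∧ f j ω = b).card = C i j a b)
    (hsq : ∀ i j, i ≠ j → ∀ a b, ∑ c, C i j a c * C j i c b = (if a = b then τ else 0) + lam)
    (hD : ∀ i j l, i ≠ j → j ≠ l → i ≠ l → ∀ a b, ∑ c, C i j a c * C j l c b = D i j l a b)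
    (hT : ∀ i j l, i ≠ j → j ≠ l → i ≠ l → ∀ a b,
      ∑ c, (D i j l a c * C l i c b + D i l j a c * C j i c b)
        = (if a = b then κ else 0) + lam')
    (hent : ∀ i j, i ≠ j → ∀ a b, (C i j a b : ℤ) = ⌊(k : ℝ) / M⌋ ∨
      (C i j a b : ℤ) = ⌈(k : ℝ) / M⌉) :
    Fam f k τ lam κ lam' where
  reg := by
    intro i a b
    have h := congrFun (congrFun (G_eq_count (h0 i)) a) b
    simp only [G, Matrix.of_apply] at h
    rw [h]
    split_ifs <;> simp
  sq := by
    intro i j hij
    rw [G_eq_count (hC i j hij), G_eq_count (hC j i hij.symm), cast_mul_eq (hsq i j hij)]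
    ext a b
    simp only [Matrix.of_apply, Matrix.add_apply, Matrix.smul_apply, Matrix.one_apply, J,
      smul_eq_mul]
    split_ifs <;> simp
  tr := by
    intro i j l hij hjl hil
    rw [G_eq_count (hC i j hij), G_eq_count (hC j i hij.symm), G_eq_count (hC i l hil),
      G_eq_count (hC l i hil.symm), G_eq_count (hC j l hjl), G_eq_count (hC l j hjl.symm),
      cast_mul_eq (hD i j l hij hjl hil), cast_mul_eq (hD i l j hil hjl.symm hij)]
    ext a b
    have h := hT i j l hij hjl hil a b
    rw [Finset.sum_add_distrib] at h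
    simp only [Matrix.of_apply, Matrix.add_apply, Matrix.smul_apply, Matrix.one_apply, J,
      smul_eq_mul, Matrix.mul_apply]
    have h' : ((∑ c, D i j l a c * C l i c b + ∑ c, D i l j a c * C j i c b : ℕ) : ℝ)
        = (((if a = b then κ else 0) + lam' : ℕ) : ℝ) := by rw [h]
    push_cast at h'
    rw [h']
    split_ifs <;> simp
  ent := by
    intro i j hij a b
    rw [G_eq_count (hC i j hij), Matrix.of_apply]
    rcases hent i j hij a b with h | h
    · left
      rw [← h]
      simp
    · right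
      rw [← h]
      simp

theorem count_eq {A B R : Type} [Fintype R] [DecidableEq A] [DecidableEq B] (f : Ω → A)
    (g : Ω → B) (φ : R → A → Ω) (ψ : Ω → R) (h1 : ∀ r a, f (φ r a) = a)
    (h2 : ∀ r a, ψ (φ r a) = r) (h3 : ∀ ω, φ (ψ ω) (f ω) = ω) (a : A) (b : B) :
    (Finset.univ.filter fun ω => f ω = a ∧ g ω = b).card
      = (Finset.univ.filter fun r => g (φ r a) = b).card := by
  refine Finset.card_bij' (fun ω _ => ψ ω) (fun r _ => φ r a) ?_ ?_ ?_ ?_
  · intro ω hω
    simp only [Finset.mem_filter, Finset.mem_univ, true_and] at hω ⊢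
    rw [← hω.1, h3]
    exact hω.2
  · intro r hr
    simp only [Finset.mem_filter, Finset.mem_univ, true_and] at hr ⊢
    exact ⟨h1 r a, hr⟩
  · intro ω hω
    simp only [Finset.mem_filter, Finset.mem_univ, true_and] at hω
    rw [← hω.1, h3]
  · intro r _
    exact h2 r a

/-! ### The data -/

/-- `look w T i` is the `i`-th digit of `T` in base `2 ^ w`. -/
def look (w T i : ℕ) : ℕ := (T >>> (w * i)) % 2 ^ w

/-- The codes of the tables of the three partitions into 23 parts. -/
def codeF : Fin 3 → ℕ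
  | 0 => 0x16ad2728c1ee6b16a4a0e629062082d5a4e5183dcd62d4941cc520c4105ab49ca307b9ac5a928398a418820b56939460f7358b525073148310416ad2728c1ee6b16a4a0e629062082d5a4e5183dcd62d4941cc520c4105ab49ca307b9ac5a928398a418820b56939460f7358b525073148310416ad2728c1ee6b16a4a0e629062082d5a4e5183dcd62d4941cc520c4105ab49ca307b9ac5a928398a418820
  | 1 => 0x1698db5924a1890143c1cc520cf12c75909948a08b8041333db649cae53c54886d381c6a6ac122b995418894b83382eb27984362811236d439501435727aa9171482b24101b2b331c8b3b1517267069461aa00f15a923306a359306a24f8904ba1c0e0d665758492d50f61e3280c2a9980d5d0906d428250eeb1a71789699140c50caf651671cccdaa65070548890161508eb4d46148acaa22f6ad2780c01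
  | 2 => 0x8924d98465aa6c8809477b28672d0080e2c92c44a36a77852675a6554ce078a168a8232328672d056d649148c0705f5825711da656a8e46510a0c4a06add47a27015644624c3b1ce95c080629b37564f0d223b20a2334c853c60b25920d22e5ce02a9c858b0a74b840aa2c35ce0d549e1a18958588643420a1ca2549ec4c5cb98cd47d4653b1609c8814c5d6441aa148b375044359404c46b441b53bd81

/-- The codes of the tables of the three partitions into 11 parts. -/
def codeG : Fin 3 → ℕ
  | 0 => 0xaaaaaaaaaaaaaaaaaaaaaaa99999999999999999999999888888888888888888888887777777777777777777777766666666666666666666666555555555555555555555554444444444444444444444433333333333333333333333222222222222222222222221111111111111111111111100000000000000000000000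
  | 1 => 0xa4638297501a6295184073a0935271864a295184073a699a8241607535184073a629828971305a6484073a6295173178602a495073a62951846420675a19383a6295184075731a56490826295184073a4162094538a795184073a6236051a834279184073a6295285a409723164073a629518157493a8612073a629518400
  | 2 => 0xa1457930862a4938271605a19034682a754938271605a9408a2357196938271605a4853a7912460838271605a4977429680135a8271605a49369631857a024271605a49385385207469a171605a49382402741a635891605a49382738a163095247605a49382712679052a841305a4938271612568a4197305a4938271600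

/-- Codes of inverse tables. -/
def codeIF : Fin 3 → ℕ
  | 0 => 0x16ad2728c1ee6b16a4a0e629062082d5a4e5183dcd62d4941cc520c4105ab49ca307b9ac5a928398a418820b56939460f7358b525073148310416ad2728c1ee6b16a4a0e629062082d5a4e5183dcd62d4941cc520c4105ab49ca307b9ac5a928398a418820b56939460f7358b525073148310416ad2728c1ee6b16a4a0e629062082d5a4e5183dcd62d4941cc520c4105ab49ca307b9ac5a928398a418820
  | 1 => 0x1692ab16a04799805811237b28172cb58a69061c269340478d0275a6b544948226fb196553003708e16d6492407379e4ea95514d802684cb651091bc5271a2da12704540162caab1c68138316960c9d64f3d00bb2889348470b570611f64522e34c0aaa465ac4265b14fb0dc23ce0d2c809a208da41655592ea88e1349ec2440898c2c9bd444d50da48cb2c5d61c00714d7693923450ec344aa241b513c01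
  | 2 => 0xb68e33aa4a191007628c2751e88586a60a12a208b8bc06b24a16cdc7ac049b05f199c6a33805aa08b649b44bc28aadd09184c2b404a1c6ab466143967a29af896162300399849ac88b3b5469a58e851f51d802914288bc6a33125922cd3cdd41540189170638492d90489eaa349b30d00b80df4b3428254e3818492c5925cc0a7b8b3ab1671d0c27b828242d1548096b892a594614ca1435671beb04c40c

/-- Codes of inverse tables. -/
def codeIG : Fin 3 → ℕ
  | 0 => 0xa9876543210a9876543210a9876543210a9876543210a9876543210a9876543210a9876543210a9876543210a9876543210a9876543210a9876543210a9876543210a9876543210a9876543210a9876543210a9876543210a9876543210a9876543210a9876543210a9876543210a9876543210a9876543210a9876543210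
  | 1 => 0xa8142056739897031a45621786a2093454067591a82323a5648097101294537a865a018342697649a072315875389a612043642789501a925316784a0a37048159265926a37048104815926a376a37048159215926a37048704815926a326a37048159815926a37043704815926a926a37048154815926a370a9876543210
  | 2 => 0xa5261784093294150673a8718304a562986072a39451075a61928343a6495081721295384a7065018427396a94a073162854839a62051763728951a40a8642097531097531a86421a8642097532097531a86431a8642097542097531a86531a8642097642097531a87531a8642098642097531a97531a86420a9876543210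

/-- Codes of the intersection matrices. -/
def codeC : Fin 3 → Fin 3 → ℕ
  | 0, 1 => 0x14748eb4748e34748eb4748db4748bb47483b47483b47483b474a3b47423b4745c44765c64765c247a5ca4725da4625fa4625ba4e253a5e243a6e263a6e223a800ffe
  | 0, 2 => 0xb89714b8971cb89714b89724b89744b897c4b897c4b897c4b895c4b89dc4b89dc4474dc6472dc2472dca462dda442dfa422dba462d3a4e2c3a4e2e3a2e2a3a000ffe
  | 1, 0 => 0x1b888e9b8c8e5b848e5b948c5bb4885bf4845b748c5a749c58749c5c745c54745c4b8a5c4b8e5c4b8a5c4b925c4ba25c4be25c4be25c4be25c4ae25c4ee25c4800ffe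
  | 1, 2 => 0x47571647171a47971a46973a44977a4097ba48973a58963a78963a389a3ab8923b47523b47123b47523b46d23b45d23b41d23b41d23b41d23b51d23b11d23b7ff000
  | 2, 0 => 0x4768ea4768e24768ea4768da4768ba47683a47683a47683a476a3a47623a47623ab8b238b8d23cb8d234b9d224bbd204bdd244b9d2c4b1d3c4b1d1c4d1d5c4fff000
  | 2, 1 => 0xb89714b8971cb89714b89724b89744b897c4b897c4b897c4b895c4b89dc4b8923bb89239b8923db85235b8d225b9d205b9d245b1d2c5a1d3c591d1c591d5c57ff000
  | _, _ => 0

/-- Codes of the products of two intersection matrices. -/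
def codeD : Fin 3 → Fin 3 → Fin 3 → ℕ
  | 0, 1, 2 => 0x656665556556566655565650656665556556566655566650656665556556566655565650656665556556566655655650656665556556566656555650656665556556566666555650656665556556566666555650656665556556566666555650656665556556565666555650656665556556665666555650656665556556665666555650565556665655665666555660565556665565665666555560565556665565665666556560565556655565665666566560565556555565665666666560565555655565665665666560565556655565665655666560565566655565665555666560565566655565666555666560556566655565656555666560555555555555666666666660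
  | 0, 2, 1 => 0x6565556665605655566656566565556665605655566655566565556665605655566656566565556665605655566566566565556665605655565666566565556665605655555666566565556665605655555666566565556665605655555666566565556665605656555666566565556665605556555666566565556665605065666555655565556665665065666555665565556665665065666555565565556666565065666556565565556665565065666566565565556655565065666666565565556655565065665666565565566655565065655666565565666655565065555666565566566655565066555666565566566655565056555666565655555555555666666666660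
  | 1, 0, 2 => 0x5565556665606566655565665565556665506566655566565565556666506566655566565565556656506566655666565565556556506566656666565565555556506566665666565565565556506566655666565565665556506566555666565566665556506566555666565556665556506656555666565656665556506056555666566565556665656056555666566565556665556056555666566565556665656056555666566565556656656056555666566565556566656056555666566565555566656056555666566565555566656056555666566565555566656056555666566565655566656056555666566555655566656056555666566566666666666555555555550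
  | 1, 2, 0 => 0x6656665556505655566656556656665556605655566655656656665555605655566655656656665565605655566555656656665665605655565555656656666665605655556555656656656665605655566555656656556665605655666555656655556665605655666555656665556665605565666555656565556665605065666555655656665556565065666555655656665556665065666555655656665556565065666555655656665565565065666555655656665655565065666555655656666655565065666555655656666655565065666555655656666655565065666555655656566655565065666555655666566655565065666555655655555555555666666666660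
  | 2, 0, 1 => 0x5656665556506566655565655656665556506566655566655656665556506566655565655656665556506566655655655656665556506566656555655656665556506566666555655656665556506566666555655656665556506566666555655656665556506565666555655656665556506665666555655656665556506056555666566656665556556056555666556656665556556056555666656656665555656056555665656656665556656056555655656656665566656056555555656656665566656056556555656656655566656056566555656656555566656056666555656655655566656055666555656655655566656065666555656566666666666555555555550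
  | 2, 1, 0 => 0x565556665665655566656560565556665665655566655560565556665665655566656560565556665665655566566560565556665665655565666560565556665665655555666560565556665665655555666560565556665665655555666560565556665665656555666560565556665665556555666560565556665665556555666560656665556566556555666550656665556656556555666650656665556656556555665650656665566656556555655650656665666656556555555650656666566656556556555650656665566656556566555650656655566656556666555650656655566656555666555650665655566656565666555650666666666666555555555550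
  | _, _, _ => 0

/-- The point set: 11 rows and 23 columns. -/
abbrev Om : Type := Fin 11 × Fin 23

/-- The three partitions into 23 parts. -/
def fF (i : Fin 3) (ω : Om) : Fin 23 :=
  ⟨look 5 (codeF i) (23 * ω.1 + ω.2) % 23, Nat.mod_lt _ (by norm_num)⟩

/-- The three partitions into 11 parts. -/
def fG (i : Fin 3) (ω : Om) : Fin 11 :=
  ⟨look 4 (codeG i) (23 * ω.1 + ω.2) % 11, Nat.mod_lt _ (by norm_num)⟩

/-- The point in row `r` with label `a`. -/
def φF (i : Fin 3) (r : Fin 11) (a : Fin 23) : Om :=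
  (r, ⟨look 5 (codeIF i) (23 * r + a) % 23, Nat.mod_lt _ (by norm_num)⟩)

/-- The point in column `c` with label `a`. -/
def φG (i : Fin 3) (c : Fin 23) (a : Fin 11) : Om :=
  (⟨look 4 (codeIG i) (11 * c + a) % 11, Nat.mod_lt _ (by norm_num)⟩, c)

/-- The intersection matrices of the partitions into 23 parts. -/
def CF (i j : Fin 3) (a b : Fin 23) : ℕ := look 1 (codeC i j) (23 * a + b)

/-- The products of two of them. -/
def DF (i j l : Fin 3) (a b : Fin 23) : ℕ := look 4 (codeD i j l) (23 * a + b)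

set_option maxRecDepth 100000

theorem φF_label : ∀ i r a, fF i (φF i r a) = a := by decide +kernel

theorem φF_inv : ∀ i ω, φF i ω.1 (fF i ω) = ω := by decide +kernel

theorem φG_label : ∀ i c a, fG i (φG i c a) = a := by decide +kernel

theorem φG_inv : ∀ i ω, φG i ω.2 (fG i ω) = ω := by decide +kernel

theorem countF {B : Type} [DecidableEq B] (i : Fin 3) (g : Om → B) (a : Fin 23) (b : B) :
    (Finset.univ.filter fun ω => fF i ω = a ∧ g ω = b).card
      = (Finset.univ.filter fun r => g (φF i r a) = b).card :=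
  count_eq (fF i) g (φF i) Prod.fst (φF_label i) (fun _ _ => rfl) (φF_inv i) a b

theorem countG {B : Type} [DecidableEq B] (i : Fin 3) (g : Om → B) (a : Fin 11) (b : B) :
    (Finset.univ.filter fun ω => fG i ω = a ∧ g ω = b).card
      = (Finset.univ.filter fun c => g (φG i c a) = b).card :=
  count_eq (fG i) g (φG i) Prod.snd (φG_label i) (fun _ _ => rfl) (φG_inv i) a b

theorem numF1 : ∀ i j : Fin 3, i ≠ j → ∀ a b : Fin 23,
    (Finset.univ.filter fun r : Fin 11 => fF j (φF i r a) = b).card = CF i j a b := by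
  decide +kernel

theorem numF2 : ∀ i j : Fin 3, i ≠ j → ∀ a b : Fin 23,
    ∑ c, CF i j a c * CF j i c b = (if a = b then 6 else 0) + 5 := by
  decide +kernel

theorem numF3 : ∀ i j l : Fin 3, i ≠ j → j ≠ l → i ≠ l → ∀ a b : Fin 23,
    ∑ c, CF i j a c * CF j l c b = DF i j l a b := by
  decide +kernel

theorem numF4 : ∀ i j l : Fin 3, i ≠ j → j ≠ l → i ≠ l → ∀ a b : Fin 23,
    ∑ c, (DF i j l a c * CF l i c b + DF i l j a c * CF j i c b)
      = (if a = b then 17 else 0) + 115 := by
  decide +kernel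

theorem numF5 : ∀ i j : Fin 3, ∀ a b : Fin 23, CF i j a b = 0 ∨ CF i j a b = 1 := by
  decide +kernel

theorem numG1 : ∀ i j : Fin 3, i ≠ j → ∀ a b : Fin 11,
    (Finset.univ.filter fun c : Fin 23 => fG j (φG i c a) = b).card
      = 2 + (if a = b then 1 else 0) := by
  decide +kernel

theorem numFG : ∀ i j : Fin 3, ∀ (a : Fin 23) (b : Fin 11),
    (Finset.univ.filter fun r : Fin 11 => fG j (φF i r a) = b).card = 1 := by
  decide +kernel

theorem famF : Fam fF (11 : ℕ) (6 : ℕ) (5 : ℕ) (17 : ℕ) (115 : ℕ) := by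
  refine fam_of_nat CF DF ?_ ?_ numF2 numF3 numF4 ?_
  · intro i a b
    rw [countF]
    simp only [φF_label]
    split_ifs with h <;> simp [h]
  · intro i j hij a b
    rw [countF, numF1 i j hij]
  · intro i j _ a b
    have h1 : ⌊((11 : ℕ) : ℝ) / (23 : ℕ)⌋ = 0 := by
      rw [Int.floor_eq_iff]
      norm_num
    have h2 : ⌈((11 : ℕ) : ℝ) / (23 : ℕ)⌉ = 1 := by
      rw [Int.ceil_eq_iff]
      norm_num
    rw [h1, h2]
    rcases numF5 i j a b with h | h <;> simp [h]

theorem famG : Fam fG (23 : ℕ) (1 : ℕ) (48 : ℕ) (2 : ℕ) (2212 : ℕ) := by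
  refine fam_of_nat (fun _ _ a b => 2 + (if a = b then 1 else 0))
    (fun _ _ _ a b => 48 + (if a = b then 1 else 0)) ?_ ?_ ?_ ?_ ?_ ?_
  · intro i a b
    rw [countG]
    simp only [φG_label]
    split_ifs with h <;> simp [h]
  · intro i j hij a b
    rw [countG, numG1 i j hij]
  · intro i j _
    decide +kernel
  · intro i j l _ _ _
    decide +kernel
  · intro i j l _ _ _
    decide +kernel
  · intro i j _ a b
    have h1 : ⌊((23 : ℕ) : ℝ) / (11 : ℕ)⌋ = 2 := by
      rw [Int.floor_eq_iff]
      norm_num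
    have h2 : ⌈((23 : ℕ) : ℝ) / (11 : ℕ)⌉ = 3 := by
      rw [Int.ceil_eq_iff]
      norm_num
    rw [h1, h2]
    split_ifs <;> simp

theorem orthFG (i j : Fin 3) : Orthogonal (Setoid.ker (fF i)) (Setoid.ker (fG j)) := by
  intro c d
  obtain ⟨x, rfl⟩ := Quotient.exists_rep c
  obtain ⟨y, rfl⟩ := Quotient.exists_rep d
  have h1 : (Finset.univ.filter fun ω => fF i ω = fF i x ∧ fG j ω = fG j y).card = 1 := by
    rw [countF, numFG]
  obtain ⟨ω, hω⟩ := Finset.card_eq_one.1 h1
  have hmem : ∀ ω', (fF i ω' = fF i x ∧ fG j ω' = fG j y) ↔ ω' = ω := by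
    intro ω'
    have h2 : ω' ∈ (Finset.univ.filter fun ω => fF i ω = fF i x ∧ fG j ω = fG j y) ↔
        ω' ∈ ({ω} : Finset Om) := by rw [hω]
    simpa using h2
  refine ⟨ω, ?_, ?_⟩
  · simpa only [mk_eq_iff] using (hmem ω).2 rfl
  · intro ω' hω'
    simp only [mk_eq_iff] at hω'
    exact (hmem ω').1 hω'

end

/-- There is an `11 × 23` Youden-type design with three stages and three layers. -/
theorem result : ∃ (Ω : Type) (_ : Fintype Ω) (_ : DecidableEq Ω) (𝓕 𝓖 : Set (Setoid Ω)),
    IsYoudenType 11 23 𝓕 𝓖 ∧ 3 ≤ 𝓕.ncard ∧ 3 ≤ 𝓖.ncard := by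
  have hF := famF
  have hG := famG
  push_cast at hF hG
  have cF : (⌈(11 : ℝ) / (23 : ℕ)⌉ : ℝ) < 11 := by
    have : ⌈(11 : ℝ) / (23 : ℕ)⌉ = 1 := by
      rw [Int.ceil_eq_iff]
      norm_num
    rw [this]
    norm_num
  have cG : (⌈(23 : ℝ) / (11 : ℕ)⌉ : ℝ) < 23 := by
    have : ⌈(23 : ℝ) / (11 : ℕ)⌉ = 3 := by
      rw [Int.ceil_eq_iff]
      norm_num
    rw [this]
    norm_num
  refine ⟨Om, inferInstance, inferInstance, Set.range fun i => Setoid.ker (fF i),
    Set.range fun i => Setoid.ker (fG i), ?_, ?_, ?_⟩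
  · refine ⟨by norm_num, by norm_num, by simp [Om], ?_, ?_, ?_, ?_, ?_⟩
    · rintro _ ⟨i, rfl⟩
      refine ⟨natCard_quot (hF.reg i) (by norm_num), fun c => ?_⟩
      exact_mod_cast natCard_part (hF.reg i) c
    · rintro _ ⟨i, rfl⟩
      refine ⟨natCard_quot (hG.reg i) (by norm_num), fun c => ?_⟩
      exact_mod_cast natCard_part (hG.reg i) c
    · rintro _ ⟨i, rfl⟩ _ ⟨j, rfl⟩
      exact orthFG i j
    · exact hF.universalBalance (by norm_num) (by norm_num) (by norm_num) (by norm_num)
        (by norm_num) (by norm_num)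
    · exact hG.universalBalance (by norm_num) (by norm_num) (by norm_num) (by norm_num)
        (by norm_num) (by norm_num)
  · rw [hF.ncard cF]
  · rw [hG.ncard cG]

end Pool.Agent.Results.MP_a8a68c_co.ThreeStagesThreeLayers
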